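import Mathlib

/-!
# Integer-valued positive definite functions on abelian groups

Every integer-valued positive definite function on an abelian group is a finite integral
combination of indicator functions of cosets of subgroups.  (For measures on compact abelian
groups this is the theorem of P. J. Cohen on idempotent measures, for positive measures.)
The proof works in a Hilbert space with a stationary family of vectors.
-/

open Filter Topology
open scoped InnerProductSpace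

namespace Pool.Agent.H4.Coset

variable {Γ : Type*} [AddCommGroup Γ] {H : Type*} [NormedAddCommGroup H] [InnerProductSpace ℝ H]


/-- a subgroup together with a finite list of integers and elements of the group -/
structure Piece (Γ : Type*) [AddCommGroup Γ] where
  /-- the subgroup -/
  Λ : AddSubgroup Γ
  /-- the integers and the representatives of cosets -/
  L : List (ℤ × Γ)

open scoped Classical in
/-- the integral combination of indicator functions of cosets of the subgroup `Λ` -/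
noncomputable def Piece.val (P : Piece Γ) (γ : Γ) : ℤ :=
  (P.L.map fun t => if γ - t.2 ∈ P.Λ then t.1 else 0).sum

/-- positive definite functions with integral values -/
def PosDef (φ : Γ → ℤ) : Prop :=
  ∀ f : Γ →₀ ℝ, 0 ≤ f.sum fun a x => f.sum fun b y => x * y * (φ (a - b) : ℝ)

lemma Piece.val_add (P : Piece Γ) {l : Γ} (hl : l ∈ P.Λ) (γ : Γ) : P.val (γ + l) = P.val γ := by
  classical
  unfold Piece.val
  congr 1
  apply List.map_congr_left
  intro t _
  have : γ + l - t.2 ∈ P.Λ ↔ γ - t.2 ∈ P.Λ := by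
    have e : γ + l - t.2 = (γ - t.2) + l := by abel
    rw [e]
    exact P.Λ.add_mem_cancel_right hl
  simp only [this]

/-- stationary families of vectors -/
def Stationary (v : Γ → H) : Prop := ∀ a b c, ⟪v (a + c), v (b + c)⟫_ℝ = ⟪v a, v b⟫_ℝ

lemma Stationary.norm {v : Γ → H} (h : Stationary v) (a : Γ) : ‖v a‖ = ‖v 0‖ := by
  have := h 0 0 a
  rw [zero_add, real_inner_self_eq_norm_sq, real_inner_self_eq_norm_sq] at this
  exact (pow_left_inj₀ (norm_nonneg _) (norm_nonneg _) two_ne_zero).mp this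

/-- translates of a stationary family are equal if they are equal at one place -/
lemma Stationary.eq_of_eq {w : Γ → H} (h : Stationary w) {a b : Γ} (e : w a = w b) (c : Γ) :
    w (a + c) = w (b + c) := by
  have h1 : ‖w (a + c) - w (b + c)‖ ^ 2 = ‖w a - w b‖ ^ 2 := by
    rw [← real_inner_self_eq_norm_sq, ← real_inner_self_eq_norm_sq]
    simp only [inner_sub_left, inner_sub_right]
    rw [h a a c, h a b c, h b a c, h b b c]
  rw [e, sub_self, norm_zero] at h1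
  have h2 : ‖w (a + c) - w (b + c)‖ = 0 := by
    have : ‖w (a + c) - w (b + c)‖ ^ 2 = 0 := by rw [h1]; norm_num
    exact pow_eq_zero_iff two_ne_zero |>.mp this
  exact sub_eq_zero.mp (norm_eq_zero.mp h2)

section
variable [CompleteSpace H]

lemma exists_weak_limit {ι : Type*} (U : Ultrafilter ι) (f : ι → H) (C : ℝ)
    (hC : ∀ i, ‖f i‖ ≤ C) :
    ∃ w : H, ∀ h : H, Tendsto (fun i => ⟪f i, h⟫_ℝ) U (𝓝 ⟪w, h⟫_ℝ) := by
  have hb : ∀ (h : H) (i : ι), |⟪f i, h⟫_ℝ| ≤ C * ‖h‖ := fun h i =>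
    (abs_real_inner_le_norm _ _).trans (mul_le_mul_of_nonneg_right (hC i) (norm_nonneg _))
  have hlim : ∀ h : H, ∃ l : ℝ, Tendsto (fun i => ⟪f i, h⟫_ℝ) U (𝓝 l) := by
    intro h
    have hc : IsCompact (Set.Icc (-(C * ‖h‖)) (C * ‖h‖)) := isCompact_Icc
    obtain ⟨l, _, hl⟩ := hc.ultrafilter_le_nhds (U.map (fun i => ⟪f i, h⟫_ℝ)) (by
      rw [Filter.le_principal_iff]
      exact Filter.mem_map.mpr (Filter.univ_mem' fun i => abs_le.mp (hb h i)))
    exact ⟨l, hl⟩
  choose l hl using hlim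
  let L : H →ₗ[ℝ] ℝ :=
    { toFun := l
      map_add' := fun x y => by
        refine tendsto_nhds_unique (hl (x + y)) ?_
        have := (hl x).add (hl y)
        refine this.congr fun i => ?_
        rw [inner_add_right]
      map_smul' := fun r x => by
        refine tendsto_nhds_unique (hl (r • x)) ?_
        have := (hl x).const_mul r
        refine this.congr fun i => ?_
        rw [inner_smul_right] }
  have hL : ∀ x, ‖L x‖ ≤ C * ‖x‖ := by
    intro x
    refine le_of_tendsto (hl x).norm (Filter.Eventually.of_forall fun i => ?_)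
    rw [Real.norm_eq_abs]
    exact hb x i
  let L' : H →L[ℝ] ℝ := L.mkContinuous C hL
  refine ⟨(InnerProductSpace.toDual ℝ H).symm L', fun h => ?_⟩
  have e : ⟪(InnerProductSpace.toDual ℝ H).symm L', h⟫_ℝ = l h := by
    rw [InnerProductSpace.toDual_symm_apply]
    rfl
  rw [e]
  exact hl h

/-- `w` is a weak limit of translates of `v` -/
def IsLim (v w : Γ → H) : Prop :=
  ∃ U : Ultrafilter Γ, ∀ γ h, Tendsto (fun δ => ⟪v (γ + δ), h⟫_ℝ) U (𝓝 ⟪w γ, h⟫_ℝ)

omit [CompleteSpace H] in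
lemma isLim_self (v : Γ → H) : IsLim v v :=
  ⟨pure 0, fun γ h => by
    have : (fun δ => ⟪v (γ + δ), h⟫_ℝ) 0 = ⟪v γ, h⟫_ℝ := by simp
    rw [← this]
    exact tendsto_pure_nhds _ _⟩

lemma exists_lim {v : Γ → H} (hv : Stationary v) (U : Ultrafilter Γ) :
    ∃ w : Γ → H, ∀ γ h, Tendsto (fun δ => ⟪v (γ + δ), h⟫_ℝ) U (𝓝 ⟪w γ, h⟫_ℝ) := by
  have := fun γ => exists_weak_limit U (fun δ => v (γ + δ)) ‖v 0‖ (fun δ => (hv.norm _).le)
  choose w hw using this
  exact ⟨w, hw⟩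

omit [CompleteSpace H] in
lemma lim_joint {v w : Γ → H} (hv : Stationary v) {U : Ultrafilter Γ}
    (hw : ∀ γ h, Tendsto (fun δ => ⟪v (γ + δ), h⟫_ℝ) U (𝓝 ⟪w γ, h⟫_ℝ)) (a b c : Γ) :
    ⟪v (a + c), w (b + c)⟫_ℝ = ⟪v a, w b⟫_ℝ := by
  have h1 := hw (b + c) (v (a + c))
  have h2 := hw b (v a)
  have e1 : ⟪v (a + c), w (b + c)⟫_ℝ = ⟪w (b + c), v (a + c)⟫_ℝ := real_inner_comm _ _
  have e2 : ⟪v a, w b⟫_ℝ = ⟪w b, v a⟫_ℝ := real_inner_comm _ _
  rw [e1, e2]
  refine tendsto_nhds_unique h1 (h2.congr fun δ => ?_)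
  have : b + c + δ = b + δ + c := by abel
  rw [this, hv]

omit [CompleteSpace H] in
lemma lim_stationary {v w : Γ → H} (hv : Stationary v) {U : Ultrafilter Γ}
    (hw : ∀ γ h, Tendsto (fun δ => ⟪v (γ + δ), h⟫_ℝ) U (𝓝 ⟪w γ, h⟫_ℝ)) : Stationary w := by
  intro a b c
  have h1 := hw (a + c) (w (b + c))
  have h2 := hw a (w b)
  refine tendsto_nhds_unique h1 (h2.congr fun δ => ?_)
  have : a + c + δ = a + δ + c := by abel
  rw [this, lim_joint hv hw]

omit [CompleteSpace H] in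
lemma lim_lim {v w w' : Γ → H} {U V : Ultrafilter Γ}
    (hw : ∀ γ h, Tendsto (fun δ => ⟪v (γ + δ), h⟫_ℝ) U (𝓝 ⟪w γ, h⟫_ℝ))
    (hw' : ∀ γ h, Tendsto (fun δ => ⟪w (γ + δ), h⟫_ℝ) V (𝓝 ⟪w' γ, h⟫_ℝ)) : IsLim v w' := by
  refine ⟨V.bind fun δ => U.map fun ε => δ + ε, fun γ h => ?_⟩
  rw [tendsto_def]
  intro N hN
  obtain ⟨N', hN', hN'o, hN'm⟩ := mem_nhds_iff.mp hN
  have h1 : ∀ᶠ δ in (V : Filter Γ), ⟪w (γ + δ), h⟫_ℝ ∈ N' := (hw' γ h) (hN'o.mem_nhds hN'm)
  have h2 : ∀ᶠ δ in (V : Filter Γ), ∀ᶠ ε in (U : Filter Γ), ⟪v (γ + (δ + ε)), h⟫_ℝ ∈ N := by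
    filter_upwards [h1] with δ hδ
    have := (hw (γ + δ) h) (hN'o.mem_nhds hδ)
    filter_upwards [this] with ε hε
    rw [← add_assoc]
    exact hN' hε
  exact h2

end

lemma closed_int : IsClosed (Set.range ((↑) : ℤ → ℝ)) := Int.isClosedEmbedding_coe_real.isClosed_range

/-- the integral values of `w` against `v` -/
lemma lim_int {v w : Γ → H}
    (hi : ∀ a b, ∃ z : ℤ, ⟪v a, v b⟫_ℝ = z) {U : Ultrafilter Γ}
    (hw : ∀ γ h, Tendsto (fun δ => ⟪v (γ + δ), h⟫_ℝ) U (𝓝 ⟪w γ, h⟫_ℝ)) (a b : Γ) :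
    ∃ z : ℤ, ⟪v a, w b⟫_ℝ = z := by
  have h2 := hw b (v a)
  have := closed_int.mem_of_tendsto h2 (Filter.Eventually.of_forall fun δ => by
    obtain ⟨z, hz⟩ := hi (b + δ) a
    exact ⟨z, hz.symm⟩)
  obtain ⟨z, hz⟩ := this
  exact ⟨z, by rw [real_inner_comm, ← hz]⟩

/-- if two members of the limit family are close, they are equal -/
lemma lim_eq {v w : Γ → H} (hv : Stationary v)
    (hi : ∀ a b, ∃ z : ℤ, ⟪v a, v b⟫_ℝ = z) {U : Ultrafilter Γ}
    (hw : ∀ γ h, Tendsto (fun δ => ⟪v (γ + δ), h⟫_ℝ) U (𝓝 ⟪w γ, h⟫_ℝ)) {a b : Γ}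
    (hab : ‖v 0‖ * ‖w a - w b‖ < 1) : w a = w b := by
  have h0 : ∀ c, ⟪v c, w a - w b⟫_ℝ = 0 := by
    intro c
    obtain ⟨z, hz⟩ := lim_int hi hw c a
    obtain ⟨z', hz'⟩ := lim_int hi hw c b
    have h1 : |⟪v c, w a - w b⟫_ℝ| < 1 := by
      refine lt_of_le_of_lt (abs_real_inner_le_norm _ _) ?_
      rwa [hv.norm]
    rw [inner_sub_right, hz, hz'] at h1 ⊢
    have h2 : |((z - z' : ℤ) : ℝ)| < 1 := by push_cast; exact h1
    rw [← Int.cast_abs] at h2
    have h3 : |z - z'| < 1 := by exact_mod_cast h2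
    have h4 : z - z' = 0 := Int.abs_lt_one_iff.mp h3
    rw [← Int.cast_sub, h4]; simp
  have h1 : ∀ c, ⟪w c, w a - w b⟫_ℝ = 0 := by
    intro c
    refine tendsto_nhds_unique (hw c (w a - w b)) ?_
    simp only [h0]
    exact tendsto_const_nhds
  have h2 : ⟪w a - w b, w a - w b⟫_ℝ = 0 := by
    rw [inner_sub_left, h1, h1, sub_zero]
  exact sub_eq_zero.mp (inner_self_eq_zero.mp h2)

/-- the subgroup of periods of a stationary family -/
def periods {w : Γ → H} (hw : Stationary w) : AddSubgroup Γ where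
  carrier := {γ | w γ = w 0}
  zero_mem' := rfl
  add_mem' := by
    intro a b ha hb
    simp only [Set.mem_ofPred_eq] at *
    have := hw.eq_of_eq ha b
    rw [this, zero_add, hb]
  neg_mem' := by
    intro a ha
    simp only [Set.mem_ofPred_eq] at *
    have := hw.eq_of_eq ha (-a)
    rw [add_neg_cancel, zero_add] at this
    exact this.symm

lemma mem_periods {w : Γ → H} (hw : Stationary w) {a b : Γ} :
    a - b ∈ periods hw ↔ w a = w b := by
  constructor
  · intro h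
    have h' : w (a - b) = w 0 := h
    have := hw.eq_of_eq h' b
    simpa using this
  · intro h
    have := hw.eq_of_eq h (-b)
    show w (a - b) = w 0
    rw [sub_eq_add_neg, this, add_neg_cancel]

variable [CompleteSpace H]

/-- the main step: splitting off a part of coset type -/
lemma split {v : Γ → H} (hv : Stationary v) (hi : ∀ a b, ∃ z : ℤ, ⟪v a, v b⟫_ℝ = z)
    (h0 : v 0 ≠ 0) :
    ∃ v₂ : Γ → H, Stationary v₂ ∧ (∀ a b, ∃ z : ℤ, ⟪v₂ a, v₂ b⟫_ℝ = z) ∧
      ‖v₂ 0‖ ^ 2 ≤ ‖v 0‖ ^ 2 - 1 ∧ ∃ P : Piece Γ, PosDef P.val ∧ 1 ≤ P.val 0 ∧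
        ∀ γ, ⟪v 0, v γ⟫_ℝ = ⟪v₂ 0, v₂ γ⟫_ℝ + P.val γ := by
  classical
  -- almost minimal norm
  set A : Set ℝ := {x | ∃ w : Γ → H, IsLim v w ∧ ⟪v 0, w 0⟫_ℝ ≠ 0 ∧ x = ‖w 0‖ ^ 2} with hA
  have hAne : A.Nonempty := ⟨‖v 0‖ ^ 2, v, isLim_self v, by
    rw [real_inner_self_eq_norm_sq]; positivity, rfl⟩
  have hAb : BddBelow A := ⟨0, by rintro x ⟨w, _, _, rfl⟩; positivity⟩
  set ε : ℝ := 1 / (4 * (‖v 0‖ ^ 2 + 1)) with hε
  have hεpos : 0 < ε := by positivity
  obtain ⟨x, ⟨w, ⟨U, hw⟩, hw0, rfl⟩, hx⟩ :=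
    exists_lt_of_csInf_lt hAne (lt_add_of_pos_right (sInf A) hεpos)
  have hws : Stationary w := lim_stationary hv hw
  have hint := lim_int hi hw
  -- the set of values is finite
  set G : Set Γ := {γ | ⟪v 0, w γ⟫_ℝ ≠ 0} with hG
  have hDfin : (w '' G).Finite := by
    by_contra hinf
    have hinf : (w '' G).Infinite := hinf
    let g' := hinf.natEmbedding
    have hg' : ∀ n, ∃ γ ∈ G, w γ = (g' n : H) := fun n => (g' n).2
    choose g hgG hgw using hg'
    have hginj : ∀ i j, w (g i) = w (g j) → i = j := by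
      intro i j hij
      apply g'.injective
      apply Subtype.ext
      rw [← hgw, ← hgw, hij]
    let V : Ultrafilter Γ := (Filter.hyperfilter ℕ).map g
    obtain ⟨w', hw'⟩ := exists_lim hws V
    have hlim' : IsLim v w' := lim_lim hw hw'
    have h1 : 1 ≤ |⟪v 0, w' 0⟫_ℝ| := by
      have ht : Tendsto (fun δ => |⟪w (0 + δ), v 0⟫_ℝ|) V (𝓝 |⟪w' 0, v 0⟫_ℝ|) := (hw' 0 (v 0)).abs
      rw [real_inner_comm]
      refine ge_of_tendsto ht ?_
      have : ∀ i : ℕ, 1 ≤ |⟪w (0 + g i), v 0⟫_ℝ| := by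
        intro i
        rw [zero_add, real_inner_comm]
        obtain ⟨z, hz⟩ := hint 0 (g i)
        have hz0 : z ≠ 0 := by
          rintro rfl
          exact hgG i (by simpa using hz)
        rw [hz, ← Int.cast_abs]
        exact_mod_cast Int.one_le_abs hz0
      show {δ | 1 ≤ |⟪w (0 + δ), v 0⟫_ℝ|} ∈ V
      exact Filter.mem_map.mpr (Filter.univ_mem' this)
    have hmem : ‖w' 0‖ ^ 2 ∈ A := ⟨w', hlim', by
      intro h; rw [h] at h1; simp at h1; linarith, rfl⟩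
    have hge : sInf A ≤ ‖w' 0‖ ^ 2 := csInf_le hAb hmem
    have ht : Tendsto (fun δ => ‖w δ - w' 0‖ ^ 2) V (𝓝 (‖w 0‖ ^ 2 - ‖w' 0‖ ^ 2)) := by
      have h2 := hw' 0 (w' 0)
      simp only [zero_add] at h2
      have h3 : Tendsto (fun δ => ‖w 0‖ ^ 2 - 2 * ⟪w δ, w' 0⟫_ℝ + ‖w' 0‖ ^ 2) V
          (𝓝 (‖w 0‖ ^ 2 - 2 * ⟪w' 0, w' 0⟫_ℝ + ‖w' 0‖ ^ 2)) :=
        ((h2.const_mul 2).const_sub _).add_const _
      rw [real_inner_self_eq_norm_sq] at h3
      have e : ‖w 0‖ ^ 2 - 2 * ‖w' 0‖ ^ 2 + ‖w' 0‖ ^ 2 = ‖w 0‖ ^ 2 - ‖w' 0‖ ^ 2 := by ring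
      rw [e] at h3
      refine h3.congr fun δ => ?_
      rw [norm_sub_sq_real, hws.norm δ]
    have hlt : ‖w 0‖ ^ 2 - ‖w' 0‖ ^ 2 < ε := by linarith
    have hev : ∀ᶠ δ in (V : Filter Γ), ‖w δ - w' 0‖ ^ 2 < ε := ht.eventually_lt_const hlt
    have hev' : {i : ℕ | ‖w (g i) - w' 0‖ ^ 2 < ε} ∈ Filter.hyperfilter ℕ := hev
    have hInf : {i : ℕ | ‖w (g i) - w' 0‖ ^ 2 < ε}.Infinite := by
      intro hf
      exact Filter.notMem_hyperfilter_of_finite hf hev'
    obtain ⟨i, hi'⟩ := hInf.nonempty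
    obtain ⟨j, hj', hne⟩ := hInf.exists_notMem_finset {i}
    rw [Finset.mem_singleton] at hne
    apply hne
    symm
    apply hginj
    apply lim_eq hv hi hw
    have hi'' : ‖w (g i) - w' 0‖ ^ 2 < ε := hi'
    have hj'' : ‖w (g j) - w' 0‖ ^ 2 < ε := hj'
    have htri : ‖w (g i) - w (g j)‖ ≤ ‖w (g i) - w' 0‖ + ‖w (g j) - w' 0‖ := by
      have : w (g i) - w (g j) = (w (g i) - w' 0) - (w (g j) - w' 0) := by abel
      rw [this]
      exact norm_sub_le _ _
    have hsq : ‖w (g i) - w (g j)‖ ^ 2 ≤ 4 * ε := by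
      have hp1 := norm_nonneg (w (g i) - w' 0)
      have hp2 := norm_nonneg (w (g j) - w' 0)
      have hp3 := norm_nonneg (w (g i) - w (g j))
      nlinarith [sq_nonneg (‖w (g i) - w' 0‖ - ‖w (g j) - w' 0‖)]
    have h5 : (‖v 0‖ * ‖w (g i) - w (g j)‖) ^ 2 < 1 := by
      rw [mul_pow]
      have h6 : ‖v 0‖ ^ 2 * ‖w (g i) - w (g j)‖ ^ 2 ≤ ‖v 0‖ ^ 2 * (4 * ε) :=
        mul_le_mul_of_nonneg_left hsq (by positivity)
      have h7 : ‖v 0‖ ^ 2 * (4 * ε) < 1 := by
        rw [hε]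
        have : ‖v 0‖ ^ 2 * (4 * (1 / (4 * (‖v 0‖ ^ 2 + 1)))) = ‖v 0‖ ^ 2 / (‖v 0‖ ^ 2 + 1) := by
          field_simp
        rw [this, div_lt_one (by positivity)]
        linarith
      linarith
    have h8 : 0 ≤ ‖v 0‖ * ‖w (g i) - w (g j)‖ := by positivity
    nlinarith
  -- the subgroup of periods and the function `γ ↦ ⟪v 0, w γ⟫_ℝ`
  have hct : ∀ δ₀ : Γ, ∃ P : Piece Γ, ∀ γ, ⟪v 0, w (γ - δ₀)⟫_ℝ = P.val γ := by
    intro δ₀
    have hch : ∀ u : hDfin.toFinset, ∃ γ ∈ G, w γ = u := fun u => by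
      have := u.2
      rw [Set.Finite.mem_toFinset] at this
      exact this
    choose γ' hγG hγw using hch
    have hz : ∀ u : hDfin.toFinset, ∃ z : ℤ, ⟪v 0, (u : H)⟫_ℝ = z := fun u => by
      rw [← hγw u]; exact hint 0 _
    choose z hz using hz
    refine ⟨⟨periods hws, (Finset.univ : Finset hDfin.toFinset).toList.map
      fun u => (z u, γ' u + δ₀)⟩, fun γ₁ => ?_⟩
    unfold Piece.val
    set γ := γ₁ - δ₀ with hγdef
    rw [List.map_map, Finset.sum_map_toList]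
    have hper : ∀ u, γ₁ - (γ' u + δ₀) ∈ periods hws ↔ w γ = u := by
      intro u
      have : γ₁ - (γ' u + δ₀) = γ - γ' u := by rw [hγdef]; abel
      rw [this, mem_periods, hγw]
    simp only [Function.comp, hper]
    push_cast
    by_cases hγ : γ ∈ G
    · have hu : w γ ∈ hDfin.toFinset := by
        rw [Set.Finite.mem_toFinset]; exact ⟨γ, hγ, rfl⟩
      rw [Finset.sum_eq_single ⟨w γ, hu⟩]
      · rw [if_pos rfl, ← hz]
      · intro b _ hb
        rw [if_neg]
        intro h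
        exact hb (Subtype.ext h.symm)
      · intro h; exact absurd (Finset.mem_univ _) h
    · have h0' : ⟪v 0, w γ⟫_ℝ = 0 := by
        by_contra h; exact hγ h
      rw [h0']
      symm
      apply Finset.sum_eq_zero
      intro u _
      rw [if_neg]
      intro h
      apply hγG u
      rw [hγw, ← h, h0']
  -- the translate
  have hwne : w 0 ≠ 0 := by
    intro h; rw [h, inner_zero_right] at hw0; exact hw0 rfl
  have hevG : ∀ᶠ δ in (U : Filter Γ), -δ ∈ G := by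
    have h1 := hw 0 (w 0)
    simp only [zero_add] at h1
    have h2 : ⟪w 0, w 0⟫_ℝ ≠ 0 := by
      rw [real_inner_self_eq_norm_sq]
      exact pow_ne_zero 2 (norm_ne_zero_iff.mpr hwne)
    have h3 := h1.eventually_ne h2
    filter_upwards [h3] with δ hδ
    show ⟪v 0, w (-δ)⟫_ℝ ≠ 0
    have := lim_joint hv hw δ 0 (-δ)
    rw [add_neg_cancel, zero_add] at this
    rw [this]
    exact hδ
  obtain ⟨u, hu, huU⟩ : ∃ u ∈ w '' G, ∀ᶠ δ in (U : Filter Γ), w (-δ) = u := by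
    have h2 : (⋃ u ∈ w '' G, {δ | w (-δ) = u}) ∈ U := by
      filter_upwards [hevG] with δ hδ
      exact Set.mem_biUnion (Set.mem_image_of_mem w hδ) (by rfl)
    rw [Ultrafilter.finite_biUnion_mem_iff hDfin] at h2
    obtain ⟨u, hu, h3⟩ := h2
    exact ⟨u, hu, h3⟩
  obtain ⟨δ₀, hδ₀⟩ := huU.exists
  have hall : ∀ᶠ δ in (U : Filter Γ), ∀ a, w (a - δ) = w (a - δ₀) := by
    filter_upwards [huU] with δ hδ a
    have : w (-δ) = w (-δ₀) := by rw [hδ, hδ₀]
    have := hws.eq_of_eq this a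
    rwa [neg_add_eq_sub, neg_add_eq_sub] at this
  have horth0 : ∀ a, ⟪w 0, w a⟫_ℝ = ⟪v δ₀, w a⟫_ℝ := by
    intro a
    have h1 := hw 0 (w a)
    refine tendsto_nhds_unique h1 ?_
    refine tendsto_const_nhds.congr' ?_
    filter_upwards [hall] with δ hδ
    have e1 := lim_joint hv hw δ₀ a (-δ₀)
    have e2 := lim_joint hv hw δ a (-δ)
    rw [zero_add, ← e1, ← e2]
    rw [add_neg_cancel, add_neg_cancel, ← sub_eq_add_neg, ← sub_eq_add_neg, hδ]
  have horth : ∀ a b, ⟪v a - w (a - δ₀), w b⟫_ℝ = 0 := by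
    intro a b
    have e1 := lim_joint hv hw δ₀ (b - (a - δ₀)) (a - δ₀)
    have e2 := hws 0 (b - (a - δ₀)) (a - δ₀)
    have e3 := horth0 (b - (a - δ₀))
    rw [add_sub_cancel, sub_add_cancel] at e1
    rw [zero_add, sub_add_cancel] at e2
    rw [inner_sub_left, e1, e2, e3, sub_self]
  set v₂ : Γ → H := fun γ => v γ - w (γ - δ₀) with hv₂
  have hdec : ∀ a b, ⟪v a, v b⟫_ℝ = ⟪v₂ a, v₂ b⟫_ℝ + ⟪w (a - δ₀), w (b - δ₀)⟫_ℝ := by
    intro a b
    have e1 : v a = v₂ a + w (a - δ₀) := by simp [hv₂]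
    have e2 : v b = v₂ b + w (b - δ₀) := by simp [hv₂]
    rw [e1, e2, inner_add_left, inner_add_right, inner_add_right]
    have h1 : ⟪v₂ a, w (b - δ₀)⟫_ℝ = 0 := horth a _
    have h2 : ⟪w (a - δ₀), v₂ b⟫_ℝ = 0 := by rw [real_inner_comm]; exact horth b _
    rw [h1, h2]; ring
  have hww : ∀ a b, ⟪w (a - δ₀), w (b - δ₀)⟫_ℝ = ⟪v a, w (b - δ₀)⟫_ℝ := by
    intro a b
    have := horth a (b - δ₀)
    rw [inner_sub_left] at this
    linarith
  refine ⟨v₂, ?_, ?_, ?_, ?_⟩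
  · intro a b c
    have h1 := hdec (a + c) (b + c)
    have h2 := hdec a b
    have h3 := hv a b c
    have h4 := hws (a - δ₀) (b - δ₀) c
    have e1 : a - δ₀ + c = a + c - δ₀ := by abel
    have e2 : b - δ₀ + c = b + c - δ₀ := by abel
    rw [e1, e2] at h4
    linarith
  · intro a b
    obtain ⟨z, hz⟩ := hi a b
    obtain ⟨z', hz'⟩ := hint a (b - δ₀)
    refine ⟨z - z', ?_⟩
    have := hdec a b
    rw [hww] at this
    push_cast
    linarith
  · have h1 := hdec 0 0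
    obtain ⟨z, hz⟩ := hint 0 (0 - δ₀)
    have h2 := hww 0 0
    rw [real_inner_self_eq_norm_sq] at h1 h2
    rw [real_inner_self_eq_norm_sq, real_inner_self_eq_norm_sq] at h1
    have h3 : 0 < ‖w (0 - δ₀)‖ ^ 2 := by
      rw [hws.norm]
      exact pow_pos (norm_pos_iff.mpr hwne) 2
    rw [hz] at h2
    rw [h2] at h3
    have h4 : (1 : ℝ) ≤ z := by exact_mod_cast (by exact_mod_cast h3 : (0 : ℤ) < z)
    linarith
  · obtain ⟨P, hP⟩ := hct δ₀
    have hP' : ∀ a b, ⟪w (a - δ₀), w (b - δ₀)⟫_ℝ = P.val (b - a) := by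
      intro a b
      rw [hww, ← hP]
      have := lim_joint hv hw 0 (b - a - δ₀) a
      rw [zero_add] at this
      rw [← this]
      congr 2; abel
    refine ⟨P, fun f => ?_, ?_, fun γ => ?_⟩
    · have h1 : (f.sum fun a x => f.sum fun b y => x * y * (P.val (a - b) : ℝ)) =
          ⟪f.sum fun a x => x • w (a - δ₀), f.sum fun a x => x • w (a - δ₀)⟫_ℝ := by
        unfold Finsupp.sum
        rw [sum_inner]
        apply Finset.sum_congr rfl
        intro a _
        rw [inner_sum]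
        apply Finset.sum_congr rfl
        intro b _
        rw [inner_smul_left, inner_smul_right, real_inner_comm, hP']
        simp
        ring
      rw [h1]
      exact real_inner_self_nonneg
    · have h1 := hP' 0 0
      rw [sub_self, real_inner_self_eq_norm_sq] at h1
      have h3 : 0 < ‖w (0 - δ₀)‖ ^ 2 := by
        rw [hws.norm]
        exact pow_pos (norm_pos_iff.mpr hwne) 2
      rw [h1] at h3
      exact_mod_cast h3
    · rw [hdec 0 γ, hP', sub_zero]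

theorem pieces_of_stationary (k : ℕ) : ∀ v : Γ → H, Stationary v →
    (∀ a b, ∃ z : ℤ, ⟪v a, v b⟫_ℝ = z) → ‖v 0‖ ^ 2 ≤ k →
    ∃ Ps : List (Piece Γ), (∀ P ∈ Ps, PosDef P.val ∧ 1 ≤ P.val 0) ∧
      ∀ γ, ⟪v 0, v γ⟫_ℝ = ((Ps.map fun P => P.val γ).sum : ℤ) := by
  induction k with
  | zero =>
    intro v hv hi hk
    have h0 : v 0 = 0 := by
      have : ‖v 0‖ ^ 2 = 0 := le_antisymm (by simpa using hk) (by positivity)
      exact norm_eq_zero.mp (pow_eq_zero_iff two_ne_zero |>.mp this)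
    exact ⟨[], by simp, fun γ => by rw [h0, inner_zero_left]; simp⟩
  | succ k ih =>
    intro v hv hi hk
    by_cases h0 : v 0 = 0
    · exact ⟨[], by simp, fun γ => by rw [h0, inner_zero_left]; simp⟩
    · obtain ⟨v₂, hs, hi₂, hn, P, hP1, hP2, hP3⟩ := split hv hi h0
      obtain ⟨Ps, h1, h2⟩ := ih v₂ hs hi₂ (by push_cast at hk; linarith)
      refine ⟨P :: Ps, ?_, fun γ => ?_⟩
      · intro Q hQ
        rcases List.mem_cons.mp hQ with rfl | hQ
        · exact ⟨hP1, hP2⟩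
        · exact h1 Q hQ
      · rw [hP3, h2, List.map_cons, List.sum_cons]
        push_cast
        ring

omit [CompleteSpace H] in
/-- an integer-valued positive definite function is a finite integral combination of indicator
functions of cosets -/
theorem pieces_of_posDef (ψ : Γ → ℤ) (hsymm : ∀ γ, ψ (-γ) = ψ γ) (hpd : PosDef ψ) :
    ∃ Ps : List (Piece Γ), (∀ P ∈ Ps, PosDef P.val ∧ 1 ≤ P.val 0) ∧
      ∀ γ, ψ γ = (Ps.map fun P => P.val γ).sum := by
  have hs : ∀ a b, ψ (b - a) = ψ (a - b) := fun a b => by rw [← hsymm]; congr 1; abel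
  let K : Matrix Γ Γ (ℝ →L[ℝ] ℝ) :=
    Matrix.of fun a b => (ψ (a - b) : ℝ) • ContinuousLinearMap.id ℝ ℝ
  have hKa : ∀ a b, K a b = (ψ (a - b) : ℝ) • ContinuousLinearMap.id ℝ ℝ := fun a b => rfl
  have hherm : K.IsHermitian := by
    refine Matrix.IsHermitian.ext fun a b => ?_
    rw [hKa, hKa, hs]
    have e : ContinuousLinearMap.adjoint (ContinuousLinearMap.id ℝ ℝ) =
        ContinuousLinearMap.id ℝ ℝ := by
      refine (ContinuousLinearMap.eq_adjoint_iff _ _).mpr (fun x y => rfl) |>.symm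
    simp [star, e]
  have hK : K.PosSemidef := by
    have htf := ((RKHS.posSemidef_tfae (K := K)).out 0 2)
    rw [htf]
    refine ⟨hherm, fun vv => ?_⟩
    have := hpd vv
    refine this.trans_eq ?_
    simp only [RCLike.re_to_real]
    unfold Finsupp.sum
    apply Finset.sum_congr rfl
    intro a _
    apply Finset.sum_congr rfl
    intro b _
    beta_reduce
    rw [hKa, hs]
    simp
    ring
  have : Fact K.PosSemidef := ⟨hK⟩
  let v : Γ → RKHS.OfKernel K := fun a => RKHS.kerFun (RKHS.OfKernel K) a (1 : ℝ)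
  have hv : ∀ a b, inner ℝ (v a) (v b) = ψ (a - b) := by
    intro a b
    have h := RKHS.kernel_inner (RKHS.OfKernel K) b a (1 : ℝ) (1 : ℝ)
    rw [RKHS.OfKernel.kernel_ofKernel, hKa, hs] at h
    simp only [v, ← h]
    simp
  have hst : Stationary v := by
    intro a b c
    rw [hv, hv]; congr 2; abel
  have hn : ‖v 0‖ ^ 2 = ψ 0 := by
    rw [← real_inner_self_eq_norm_sq, hv, sub_self]
  have hz0 : 0 ≤ ψ 0 := by
    have : (0 : ℝ) ≤ ψ 0 := by rw [← hn]; positivity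
    exact_mod_cast this
  obtain ⟨Ps, h1, h2⟩ := pieces_of_stationary (ψ 0).toNat v hst
    (fun a b => ⟨_, hv a b⟩) (by
    rw [hn]
    have : (((ψ 0).toNat : ℤ) : ℝ) = ψ 0 := by rw [Int.toNat_of_nonneg hz0]
    rw [← this, Int.cast_natCast])
  refine ⟨Ps, h1, fun γ => ?_⟩
  have := h2 γ
  rw [hv, zero_sub, hsymm] at this
  exact_mod_cast this

/-- the number of subgroups is at most `ψ 0` -/
lemma length_le {Ps : List (Piece Γ)} (h : ∀ P ∈ Ps, PosDef P.val ∧ 1 ≤ P.val 0) :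
    (Ps.length : ℤ) ≤ (Ps.map fun P => P.val 0).sum := by
  induction Ps with
  | nil => simp
  | cons P Ps ih =>
    rw [List.map_cons, List.sum_cons, List.length_cons]
    have h1 := (h P (by simp)).2
    have h2 := ih fun Q hQ => h Q (List.mem_cons_of_mem _ hQ)
    push_cast
    linarith

end Pool.Agent.H4.Coset
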