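import Pool.Agent.H4.CosetThm
import Pool.Graph.R_pool_sql_team_seeded_620a6dc7.H406.EDG.Main

/-! Means over the primes and orders at the edge. -/

open Filter Topology

namespace Pool.Agent.H4.Edge

open Pool.Agent.H4.Coset Pool.Agent.H406.EDG

variable {S : Finset ℕ}

/-- bounded functions on the primes outside `S` with the mean value `l` -/
def HasMean (f : Pr S → ℝ) (l : ℝ) : Prop :=
  (∃ C, ∀ p, |f p| ≤ C) ∧ Tendsto (fun σ => (∑' p, f p * ww σ p) / Lam σ) (𝓝[>] 1) (𝓝 l)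

lemma summable_of_bdd {f : Pr S → ℝ} (hf : ∃ C, ∀ p, |f p| ≤ C) {σ : ℝ} (hσ : 1 < σ) :
    Summable fun p => f p * ww σ p := by
  obtain ⟨C, hC⟩ := hf
  refine Summable.of_norm_bounded ((ww_summable (S := S) hσ).mul_left C) fun p => ?_
  rw [norm_mul, Real.norm_eq_abs, Real.norm_of_nonneg (ww_pos σ p).le]
  exact mul_le_mul_of_nonneg_right (hC p) (ww_pos σ p).le

lemma HasMean.unique {f : Pr S → ℝ} {l l' : ℝ} (h : HasMean f l) (h' : HasMean f l') : l = l' :=
  tendsto_nhds_unique h.2 h'.2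

lemma HasMean.add {f g : Pr S → ℝ} {l l' : ℝ} (h : HasMean f l) (h' : HasMean g l') :
    HasMean (fun p => f p + g p) (l + l') := by
  obtain ⟨C, hC⟩ := h.1
  obtain ⟨C', hC'⟩ := h'.1
  refine ⟨⟨C + C', fun p => (abs_add_le _ _).trans (add_le_add (hC p) (hC' p))⟩, ?_⟩
  refine (h.2.add h'.2).congr' ?_
  filter_upwards [self_mem_nhdsWithin] with σ hσ
  have hσ' : (1 : ℝ) < σ := hσ
  rw [← add_div, ← (summable_of_bdd h.1 hσ').tsum_add (summable_of_bdd h'.1 hσ')]
  simp only [add_mul]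

lemma HasMean.const_mul {f : Pr S → ℝ} {l : ℝ} (c : ℝ) (h : HasMean f l) :
    HasMean (fun p => c * f p) (c * l) := by
  obtain ⟨C, hC⟩ := h.1
  refine ⟨⟨|c| * C, fun p => by
    rw [abs_mul]; exact mul_le_mul_of_nonneg_left (hC p) (abs_nonneg c)⟩, ?_⟩
  refine (h.2.const_mul c).congr fun σ => ?_
  simp only [mul_assoc]
  rw [tsum_mul_left, mul_div_assoc]

lemma HasMean.zero : HasMean (fun _ : Pr S => (0 : ℝ)) 0 :=
  ⟨⟨0, fun p => by simp⟩, by simp⟩

lemma HasMean.sum {ι : Type*} (s : Finset ι) {f : ι → Pr S → ℝ} {l : ι → ℝ}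
    (h : ∀ i ∈ s, HasMean (f i) (l i)) : HasMean (fun p => ∑ i ∈ s, f i p) (∑ i ∈ s, l i) := by
  classical
  induction s using Finset.induction_on with
  | empty => simpa using HasMean.zero
  | insert a s ha ih =>
    have h1 := h a (Finset.mem_insert_self a s)
    have h2 := ih fun i hi => h i (Finset.mem_insert_of_mem hi)
    simp only [Finset.sum_insert ha]
    exact h1.add h2

lemma HasMean.nonneg {f : Pr S → ℝ} {l : ℝ} (h : HasMean f l) (hf : ∀ p, 0 ≤ f p) : 0 ≤ l := by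
  refine ge_of_tendsto h.2 ?_
  filter_upwards [Lam_tendsto.eventually_ge_atTop 0] with σ hσ
  exact div_nonneg (tsum_nonneg fun p => mul_nonneg (hf p) (ww_pos σ p).le) hσ

lemma HasMean.congr {f g : Pr S → ℝ} {l : ℝ} (h : HasMean f l) (e : ∀ p, g p = f p) :
    HasMean g l := by
  have : g = f := funext e
  rwa [this]

/-- a bounded error does not matter -/
lemma hasMean_of_bdd {f : Pr S → ℝ} (hf : ∃ C, ∀ p, |f p| ≤ C) {l C : ℝ}
    (h : ∀ᶠ σ : ℝ in 𝓝[>] 1, |∑' p, f p * ww σ p - l * Lam σ| ≤ C) : HasMean f l := by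
  refine ⟨hf, ?_⟩
  rw [tendsto_iff_norm_sub_tendsto_zero]
  have h0 : Tendsto (fun σ => C / Lam σ) (𝓝[>] 1) (𝓝 0) := Lam_tendsto.const_div_atTop C
  refine squeeze_zero' (Eventually.of_forall fun σ => norm_nonneg _) ?_ h0
  filter_upwards [h, Lam_tendsto.eventually_gt_atTop 0] with σ h1 h2
  have e : (∑' p, f p * ww σ p) / Lam σ - l = (∑' p, f p * ww σ p - l * Lam σ) / Lam σ := by
    field_simp
  rw [e, norm_div, Real.norm_eq_abs, Real.norm_of_nonneg h2.le]
  exact div_le_div_of_nonneg_right h1 h2.le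

/-- the mean of the character `χ(p) p^{-it}` -/
lemma hasMean_char {N : ℕ} [NeZero N] (χ : DirichletCharacter ℂ N) (t : ℝ) :
    HasMean (fun p : Pr S => (VV χ t p).re) (if χ = 1 ∧ t = 0 then 1 else 0) := by
  have hb : ∀ p : Pr S, ‖VV χ t p‖ ≤ 1 := norm_VV χ t
  obtain ⟨C, hC⟩ := char_sum S χ t
  refine hasMean_of_bdd (C := C) ⟨1, fun p => (Complex.abs_re_le_norm _).trans (hb p)⟩ ?_
  filter_upwards [hC, self_mem_nhdsWithin] with σ h1 h2
  have hσ : (1 : ℝ) < σ := h2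
  rw [(sum_of_bdd hb hσ).2]
  have e : ∑' p : Pr S, VV χ t p * ((ww σ p : ℝ) : ℂ) =
      ∑' p : Pr S, χ ((p.1 : ℕ) : ZMod N) * ((p.1 : ℕ) : ℂ) ^ (-(pt σ t)) := by
    refine tsum_congr fun p => ?_
    rw [cpow_split]
    unfold VV
    ring
  rw [e]
  have e2 : (if χ = 1 ∧ t = 0 then (1 : ℝ) else 0) * Lam σ = if χ = 1 ∧ t = 0 then Lam σ else 0 := by
    split_ifs <;> simp
  rw [e2]
  exact h1

lemma hasMean_one : HasMean (fun _ : Pr S => (1 : ℝ)) 1 := by
  have h := hasMean_char (S := S) (1 : DirichletCharacter ℂ 1) 0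
  rw [if_pos ⟨rfl, rfl⟩] at h
  refine h.congr fun p => ?_
  have e1 : VV (1 : DirichletCharacter ℂ 1) 0 p = 1 := by
    unfold VV
    rw [MulChar.one_apply (isUnit_of_subsingleton _)]
    simp
  rw [e1]; simp

/-- orders and means -/
lemma hasMean_of_order {ι : Type} [Fintype ι] {N : ℕ} {a : Pr S → ι → ℂ}
    (ha : ∀ p i, ‖a p i‖ = 1) {χ : DirichletCharacter ℂ N} {t : ℝ} {F : ℂ → ℂ}
    (hF : MeromorphicAt F (pt 1 t)) (h : ∀ s : ℂ, 1 < s.re → F s = LL a χ s) :
    ∃ k : ℤ, meromorphicOrderAt F (pt 1 t) = k ∧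
      HasMean (fun p => ((∑ i, a p i) * VV χ t p).re) (-k) := by
  have hne := order_ne_top (t := t) ha h
  obtain ⟨k, hk⟩ := WithTop.ne_top_iff_exists.mp hne
  refine ⟨k, hk.symm, ?_⟩
  obtain ⟨C1, hC0, hC1⟩ := LL_log ha χ t
  obtain ⟨C2, hC2⟩ := order_log hF hk.symm
  have hb : ∀ p : Pr S, |((∑ i, a p i) * VV χ t p).re| ≤ Fintype.card ι := by
    intro p
    refine (Complex.abs_re_le_norm _).trans ?_
    rw [norm_mul]
    have h4 : ‖∑ i, a p i‖ ≤ Fintype.card ι := by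
      refine (norm_sum_le _ _).trans ?_
      simp [ha]
    calc ‖∑ i, a p i‖ * ‖VV χ t p‖ ≤ Fintype.card ι * 1 :=
          mul_le_mul h4 (norm_VV χ t p) (norm_nonneg _) (Nat.cast_nonneg _)
      _ = _ := mul_one _
  refine hasMean_of_bdd (C := C1 + C2) ⟨_, hb⟩ ?_
  filter_upwards [hC1, hC2, self_mem_nhdsWithin] with σ h1 h2 h3
  have hσ : (1 : ℝ) < σ := h3
  rw [h _ (by rw [pt_re]; exact hσ)] at h2
  have h5 := abs_le.1 h1
  have h6 := abs_le.1 h2
  rw [abs_le]
  constructor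
  · linarith [h5.2, h6.1]
  · linarith [h5.1, h6.2]

/-- sums of characters are positive definite -/
lemma sum_nonneg_aux {Γ W : Type*} [AddCommGroup Γ] [Fintype W] (f : Γ →₀ ℝ)
    (c : W → Γ → Circle) (hc : ∀ w a b, c w (a - b) = c w a / c w b) :
    0 ≤ ∑ a ∈ f.support, ∑ b ∈ f.support, f a * f b * ∑ w, ((c w (a - b) : Circle) : ℂ).re := by
  have e1 : ∀ w, Complex.normSq (∑ a ∈ f.support, (f a : ℂ) * (c w a : Circle)) =
      ∑ a ∈ f.support, ∑ b ∈ f.support, f a * f b * ((c w (a - b) : Circle) : ℂ).re := by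
    intro w
    have e2 : ((Complex.normSq (∑ a ∈ f.support, (f a : ℂ) * (c w a : Circle)) : ℝ) : ℂ) =
        ∑ a ∈ f.support, ∑ b ∈ f.support, (f a : ℂ) * f b * ((c w (a - b) : Circle) : ℂ) := by
      rw [← Complex.mul_conj, map_sum, Finset.sum_mul]
      refine Finset.sum_congr rfl fun a _ => ?_
      rw [Finset.mul_sum]
      refine Finset.sum_congr rfl fun b _ => ?_
      rw [map_mul, Complex.conj_ofReal, hc, Circle.coe_div]
      rw [← Circle.coe_inv_eq_conj, Circle.coe_inv]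
      ring
    have e3 := congrArg Complex.re e2
    rw [Complex.ofReal_re] at e3
    rw [e3, Complex.re_sum]
    refine Finset.sum_congr rfl fun a _ => ?_
    rw [Complex.re_sum]
    refine Finset.sum_congr rfl fun b _ => ?_
    rw [← Complex.ofReal_mul, Complex.re_ofReal_mul]
  have e : ∑ a ∈ f.support, ∑ b ∈ f.support,
      f a * f b * ∑ w, ((c w (a - b) : Circle) : ℂ).re =
      ∑ w, Complex.normSq (∑ a ∈ f.support, (f a : ℂ) * (c w a : Circle)) := by
    symm
    calc ∑ w, Complex.normSq (∑ a ∈ f.support, (f a : ℂ) * (c w a : Circle))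
        = ∑ w : W, ∑ a ∈ f.support, ∑ b ∈ f.support,
            f a * f b * ((c w (a - b) : Circle) : ℂ).re :=
          Finset.sum_congr rfl fun w _ => e1 w
      _ = ∑ a ∈ f.support, ∑ w : W, ∑ b ∈ f.support,
            f a * f b * ((c w (a - b) : Circle) : ℂ).re := Finset.sum_comm
      _ = ∑ a ∈ f.support, ∑ b ∈ f.support, ∑ w : W,
            f a * f b * ((c w (a - b) : Circle) : ℂ).re :=
          Finset.sum_congr rfl fun a _ => Finset.sum_comm
      _ = _ := Finset.sum_congr rfl fun a _ => Finset.sum_congr rfl fun b _ => by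
          rw [Finset.mul_sum]
  rw [e]
  exact Finset.sum_nonneg fun w _ => Complex.normSq_nonneg _

/-- means of sums of characters are positive definite -/
lemma posDef_of_mean {Γ W : Type*} [AddCommGroup Γ] [Fintype W] (χ : Pr S → W → AddChar Γ Circle)
    (ψ : Γ → ℤ) (h : ∀ γ, HasMean (fun p => ∑ w, ((χ p w γ : Circle) : ℂ).re) (ψ γ)) :
    PosDef ψ ∧ (∀ γ, ψ (-γ) = ψ γ) ∧ ψ 0 = Fintype.card W := by
  refine ⟨fun f => ?_, fun γ => ?_, ?_⟩
  · have h1 : HasMean (fun p => ∑ a ∈ f.support, ∑ b ∈ f.support,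
        f a * f b * ∑ w, ((χ p w (a - b) : Circle) : ℂ).re)
        (f.sum fun a x => f.sum fun b y => x * y * (ψ (a - b) : ℝ)) :=
      HasMean.sum _ fun a _ => HasMean.sum _ fun b _ => (h (a - b)).const_mul _
    refine h1.nonneg fun p => ?_
    exact sum_nonneg_aux f (fun w γ => χ p w γ) (fun w a b => AddChar.map_sub_eq_div _ _ _)
  · have h1 := h (-γ)
    have h2 := h γ
    have h3 : HasMean (fun p => ∑ w, ((χ p w γ : Circle) : ℂ).re) (ψ (-γ)) := by
      refine h1.congr fun p => ?_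
      refine Finset.sum_congr rfl fun w _ => ?_
      rw [AddChar.map_neg_eq_inv, Circle.coe_inv_eq_conj, Complex.conj_re]
    exact_mod_cast h3.unique h2
  · have h1 := h 0
    have h2 : HasMean (fun p : Pr S => ∑ w : W, (1 : ℝ)) (∑ w : W, (1 : ℝ)) :=
      HasMean.sum _ fun w _ => hasMean_one
    have h3 : HasMean (fun p : Pr S => ∑ w : W, (1 : ℝ)) (ψ 0) := by
      refine h1.congr fun p => ?_
      refine Finset.sum_congr rfl fun w _ => ?_
      rw [AddChar.map_zero_eq_one]; simp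
    have := h3.unique h2
    simp at this
    exact_mod_cast this

end Pool.Agent.H4.Edge
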