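import Pool.Agent.H4.LandauSum

/-!
# Finitely many classes of unitary numbers attached to primes
-/

open Filter Topology Set

namespace Pool.Agent.H4.FinC

variable {P W : Type} [Fintype W]

/-- `∑_w |1 - v_w ^ j|²` -/
noncomputable def cc (v : W → Circle) (j : ℕ) : ℝ := ∑ w, ‖1 - ((v w : Circle) : ℂ) ^ j‖ ^ 2

lemma cc_nonneg (v : W → Circle) (j : ℕ) : 0 ≤ cc v j := Finset.sum_nonneg fun w _ => by positivity

lemma term_le (β : Circle) (j : ℕ) : ‖1 - (β : ℂ) ^ j‖ ^ 2 ≤ 4 := by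
  have h : ‖1 - (β : ℂ) ^ j‖ ≤ 2 := by
    refine (norm_sub_le _ _).trans ?_
    rw [norm_one, norm_pow, Circle.norm_coe, one_pow]; norm_num
  nlinarith [norm_nonneg (1 - (β : ℂ) ^ j)]

lemma cc_le (v : W → Circle) (j : ℕ) : cc v j ≤ 4 * Fintype.card W := by
  unfold cc
  refine (Finset.sum_le_sum fun w _ => term_le (v w) j).trans (le_of_eq ?_)
  simp [mul_comm]

lemma cc_one (j : ℕ) : cc (1 : W → Circle) j = 0 := by
  unfold cc; simp

lemma cc_pos {v : W → Circle} (hv : v ≠ 1) (h : ∀ w, v w = 1 ∨ ∀ j, 1 ≤ j → v w ^ j ≠ 1) {j : ℕ}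
    (hj : 1 ≤ j) : 0 < cc v j := by
  obtain ⟨w, hw⟩ : ∃ w, v w ≠ 1 := by
    by_contra hc
    push Not at hc
    exact hv (funext hc)
  unfold cc
  refine Finset.sum_pos' (fun w _ => by positivity) ⟨w, Finset.mem_univ _, ?_⟩
  have h1 := (h w).resolve_left hw j hj
  have h2 : (1 : ℂ) - ((v w : Circle) : ℂ) ^ j ≠ 0 := by
    intro h0
    apply h1
    have h3 : ((v w : Circle) : ℂ) ^ j = 1 := (sub_eq_zero.mp h0).symm
    rw [← Circle.coe_pow] at h3
    exact Circle.ext (by rw [h3, Circle.coe_one])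
  have := norm_pos_iff.mpr h2
  positivity

lemma exists_small {V : Set (W → Circle)} (hV : V.Finite) {ε : ℝ} (hε : 0 < ε) :
    ∃ j, 1 ≤ j ∧ ∀ v ∈ V, cc v j ≤ ε := by
  classical
  have : Fintype V := hV.fintype
  set X : V → W → Circle := fun v => v.1 with hX
  have h1 := mapClusterPt_one_atTop_pow X
  set Φ : (V → W → Circle) → ℝ := fun y => ∑ v : V, ∑ w, ‖1 - ((y v w : Circle) : ℂ)‖ ^ 2 with hΦ
  have hc : Continuous Φ := by
    rw [hΦ]
    fun_prop
  have h2 : ∀ᶠ y in 𝓝 (1 : V → W → Circle), Φ y < ε := by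
    refine hc.continuousAt.eventually_lt_const ?_
    simp [hΦ, hε]
  obtain ⟨j, h3, h4⟩ := ((h1.frequently h2).and_eventually (eventually_ge_atTop 1)).exists
  refine ⟨j, h4, fun v hv => ?_⟩
  have h5 : cc v j ≤ Φ (X ^ j) := by
    have h6 : cc v j = (fun v : V => ∑ w, ‖1 - (((X ^ j) v w : Circle) : ℂ)‖ ^ 2) ⟨v, hv⟩ := by
      unfold cc
      refine Finset.sum_congr rfl fun w _ => ?_
      rw [Pi.pow_apply, Pi.pow_apply, Circle.coe_pow]
    rw [h6]
    exact Finset.single_le_sum (f := fun v : V => ∑ w, ‖1 - (((X ^ j) v w : Circle) : ℂ)‖ ^ 2)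
      (fun _ _ => Finset.sum_nonneg fun _ _ => by positivity) (Finset.mem_univ _)
  exact h5.trans h3.le

/-- the coefficients -/
noncomputable def aa (z : P → W → Circle) (j : ℕ) (i : P × ℕ) : ℝ := cc (z i.1) (j * (i.2 + 1)) / (i.2 + 1)

/-- the exponents -/
def ll (q : P → ℝ) (i : P × ℕ) : ℝ := (i.2 + 1) * q i.1

open Classical in
/-- the sum over the elements which are not trivial -/
noncomputable def ee (z : P → W → Circle) (q : P → ℝ) (t : ℝ) (p : P) : ℝ :=
  if z p = 1 then 0 else Real.exp (-(t * q p))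

variable {z : P → W → Circle} {q : P → ℝ} {δ : ℝ}

lemma aa_nonneg (j : ℕ) (i : P × ℕ) : 0 ≤ aa z j i := by
  unfold aa
  have := cc_nonneg (z i.1) (j * (i.2 + 1))
  positivity

lemma ll_nonneg (hδ : 0 < δ) (hq : ∀ p, δ ≤ q p) (i : P × ℕ) : 0 ≤ ll q i := by
  unfold ll
  have := hδ.trans_le (hq i.1)
  positivity

lemma ee_nonneg (t : ℝ) (p : P) : 0 ≤ ee z q t p := by
  unfold ee
  split_ifs
  · rfl
  · exact (Real.exp_pos _).le

lemma ee_anti (hδ : 0 < δ) (hq : ∀ p, δ ≤ q p) {t t' : ℝ} (h : t ≤ t') (p : P) :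
    ee z q t' p ≤ ee z q t p := by
  unfold ee
  split_ifs
  · rfl
  · apply Real.exp_le_exp.mpr
    have := hδ.trans_le (hq p)
    nlinarith

lemma aa_le (j : ℕ) (i : P × ℕ) {t : ℝ} : aa z j i * Real.exp (-(t * ll q i)) ≤
    4 * Fintype.card W * (ee z q t i.1 * Real.exp (-(t * q i.1)) ^ i.2) := by
  unfold aa ee ll
  split_ifs with h
  · rw [h, cc_one]; simp
  · have h1 : cc (z i.1) (j * (i.2 + 1)) / (i.2 + 1) ≤ 4 * Fintype.card W := by
      rw [div_le_iff₀ (by positivity)]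
      refine (cc_le _ _).trans ?_
      have : (0 : ℝ) ≤ i.2 := Nat.cast_nonneg _
      have h2 : (0 : ℝ) ≤ 4 * Fintype.card W := by positivity
      nlinarith
    have h3 : Real.exp (-(t * ((i.2 + 1) * q i.1))) =
        Real.exp (-(t * q i.1)) * Real.exp (-(t * q i.1)) ^ i.2 := by
      rw [← Real.exp_nat_mul, ← Real.exp_add]
      congr 1
      ring
    rw [h3]
    exact mul_le_mul_of_nonneg_right h1 (by positivity)

lemma exp_q_le (hq : ∀ p, δ ≤ q p) {t : ℝ} (ht : 0 ≤ t) (p : P) :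
    Real.exp (-(t * q p)) ≤ Real.exp (-(t * δ)) := by
  apply Real.exp_le_exp.mpr
  have := hq p
  nlinarith

lemma summ (hδ : 0 < δ) (hq : ∀ p, δ ≤ q p) {t : ℝ} (ht : 0 < t) (h : Summable (ee z q t)) (j : ℕ) :
    Summable fun i : P × ℕ => aa z j i * Real.exp (-(t * ll q i)) := by
  have h1 : Real.exp (-(t * δ)) < 1 := by
    rw [Real.exp_lt_one_iff]
    have := mul_pos ht hδ
    linarith
  have h2 := h.mul_of_nonneg (summable_geometric_of_lt_one (Real.exp_pos _).le h1)
    (fun p => ee_nonneg t p) (fun k => by positivity)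
  refine Summable.of_nonneg_of_le (fun i => mul_nonneg (aa_nonneg j i) (Real.exp_pos _).le)
    (fun i => (aa_le j i).trans ?_) (h2.mul_left (4 * (Fintype.card W : ℝ)))
  refine mul_le_mul_of_nonneg_left ?_ (by positivity)
  exact mul_le_mul_of_nonneg_left (pow_le_pow_left₀ (Real.exp_pos _).le
    (exp_q_le hq ht.le _) _) (ee_nonneg t i.1)

lemma tendsto_neg_log (σ : ℝ) : Tendsto (fun t : ℝ => -Real.log (t - σ)) (𝓝[>] σ) atTop := by
  refine tendsto_neg_atBot_atTop.comp (Real.tendsto_log_nhdsGT_zero.comp ?_)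
  refine tendsto_nhdsWithin_of_tendsto_nhds_of_eventually_within _ ?_ ?_
  · have : Tendsto (fun t : ℝ => t - σ) (𝓝 σ) (𝓝 (σ - σ)) := tendsto_id.sub_const σ
    rw [sub_self] at this
    exact this.mono_left nhdsWithin_le_nhds
  · filter_upwards [self_mem_nhdsWithin] with t ht
    have h1 : σ < t := ht
    show 0 < t - σ
    linarith

lemma le_of_growth {σ A B C : ℝ}
    (h : ∀ᶠ t in 𝓝[>] σ, A * (-Real.log (t - σ)) ≤ B * (-Real.log (t - σ)) + C) : A ≤ B := by
  by_contra hlt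
  push Not at hlt
  have h1 : 0 < A - B := by linarith
  have h2 := ((tendsto_neg_log σ).const_mul_atTop h1).eventually_gt_atTop C
  obtain ⟨t, h3, h4⟩ := (h.and h2).exists
  nlinarith

lemma min_pos {V : Set (W → Circle)} (hV : V.Finite)
    (h : ∀ v ∈ V, v ≠ 1 → ∀ j, 1 ≤ j → 0 < cc v j) {j : ℕ} (hj : 1 ≤ j) :
    ∃ c > 0, ∀ v ∈ V, v ≠ 1 → c ≤ cc v j := by
  classical
  set V' := hV.toFinset.filter (fun v => v ≠ 1) with hV'
  rcases V'.eq_empty_or_nonempty with h0 | h0
  · refine ⟨1, one_pos, fun v hv hv1 => ?_⟩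
    have : v ∈ V' := by rw [hV']; simp [hv, hv1]
    rw [h0] at this
    simp at this
  · obtain ⟨v0, hv0, hmin⟩ := V'.exists_min_image (fun v => cc v j) h0
    rw [hV', Finset.mem_filter, Set.Finite.mem_toFinset] at hv0
    refine ⟨cc v0 j, h v0 hv0.1 hv0.2 j hj, fun v hv hv1 => hmin v ?_⟩
    rw [hV']; simp [hv, hv1]

lemma lower (j : ℕ) {c : ℝ} (hc : ∀ p, z p ≠ 1 → c ≤ cc (z p) j) (t : ℝ) (p : P) :
    c * ee z q t p ≤ aa z j (p, 0) * Real.exp (-(t * ll q (p, 0))) := by
  unfold ee aa ll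
  split_ifs with h
  · rw [mul_zero]
    have := cc_nonneg (z p) (j * (((p, 0) : P × ℕ).2 + 1))
    positivity
  · simp only [zero_add, mul_one, Nat.cast_zero, div_one, one_mul]
    exact mul_le_mul_of_nonneg_right (hc p h) (Real.exp_pos _).le

lemma upper (hδ : 0 < δ) (hq : ∀ p, δ ≤ q p) {σ t : ℝ} (hσ : 0 < σ) (ht : σ < t) (j : ℕ) {ε : ℝ}
    (hj : ∀ p, cc (z p) j ≤ ε) (h : ∀ t, σ < t → Summable (ee z q t)) :
    ∑' i : P × ℕ, aa z j i * Real.exp (-(t * ll q i)) ≤ ε * ∑' p, ee z q t p +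
      4 * Fintype.card W * ((∑' p, ee z q (2 * σ) p) *
        ((1 - Real.exp (-(σ * δ)))⁻¹ * (Real.exp (-(σ * δ)))⁻¹)) := by
  set ρ := Real.exp (-(σ * δ)) with hρ
  have hρ0 : 0 < ρ := Real.exp_pos _
  have hρ1 : ρ < 1 := by
    rw [hρ, Real.exp_lt_one_iff]
    have := mul_pos hσ hδ
    linarith
  have s1 := h t ht
  have s2 := h (2 * σ) (by linarith)
  have g1 : Summable fun k : ℕ => (0 : ℝ) ^ k := summable_geometric_of_lt_one le_rfl one_pos
  have g2 : Summable fun k : ℕ => ρ ^ k * ρ⁻¹ := (summable_geometric_of_lt_one hρ0.le hρ1).mul_right _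
  have p1 := (s1.mul_of_nonneg g1 (fun p => ee_nonneg t p) (fun k => by positivity)).mul_left ε
  have p2 := (s2.mul_of_nonneg g2 (fun p => ee_nonneg _ p) (fun k => by positivity)).mul_left
    (4 * (Fintype.card W : ℝ))
  have e1 : ∑' p, ee z q t p = ∑' i : P × ℕ, ee z q t i.1 * (0 : ℝ) ^ i.2 := by
    rw [← tsum_mul_tsum_of_summable_norm s1.norm g1.norm, tsum_geometric_of_lt_one le_rfl one_pos]
    simp
  have e2 : (∑' p, ee z q (2 * σ) p) * ((1 - ρ)⁻¹ * ρ⁻¹) =
      ∑' i : P × ℕ, ee z q (2 * σ) i.1 * (ρ ^ i.2 * ρ⁻¹) := by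
    rw [← tsum_mul_tsum_of_summable_norm s2.norm g2.norm, tsum_mul_right,
      tsum_geometric_of_lt_one hρ0.le hρ1]
  rw [e1, e2, ← tsum_mul_left, ← tsum_mul_left, ← p1.tsum_add p2]
  refine (summ hδ hq (hσ.trans ht) s1 j).tsum_le_tsum (fun i => ?_) (p1.add p2)
  obtain ⟨p, k⟩ := i
  rcases k with _ | k
  · have h0 : 0 ≤ 4 * (Fintype.card W : ℝ) * (ee z q (2 * σ) p * (ρ ^ 0 * ρ⁻¹)) := by
      have := ee_nonneg (z := z) (q := q) (2 * σ) p
      positivity
    have h1 : aa z j (p, 0) * Real.exp (-(t * ll q (p, 0))) ≤ ε * (ee z q t p * 0 ^ 0) := by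
      unfold aa ee ll
      split_ifs with hz
      · simp only [hz]
        rw [cc_one]; simp
      · simp only [zero_add, mul_one, Nat.cast_zero, div_one, one_mul, pow_zero]
        exact mul_le_mul_of_nonneg_right (hj p) (Real.exp_pos _).le
    linarith
  · simp only [pow_succ, mul_zero, zero_add]
    refine (aa_le j _).trans ?_
    refine mul_le_mul_of_nonneg_left ?_ (by positivity)
    have e3 : ρ ^ k * ρ * ρ⁻¹ = ρ ^ k := by
      field_simp
    rw [e3]
    have hqp := hδ.trans_le (hq p)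
    have h3 : ee z q t p * Real.exp (-(t * q p)) ≤ ee z q (2 * σ) p := by
      unfold ee
      split_ifs
      · simp
      · rw [← Real.exp_add]
        apply Real.exp_le_exp.mpr
        nlinarith
    have h4 : Real.exp (-(t * q p)) ^ k ≤ ρ ^ k := by
      refine pow_le_pow_left₀ (Real.exp_pos _).le ?_ _
      rw [hρ]
      apply Real.exp_le_exp.mpr
      have := hq p
      nlinarith
    calc ee z q t p * Real.exp (-(t * q p)) ^ (k + 1)
        = (ee z q t p * Real.exp (-(t * q p))) * Real.exp (-(t * q p)) ^ k := by ring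
      _ ≤ ee z q (2 * σ) p * ρ ^ k :=
          mul_le_mul h3 h4 (by positivity) (ee_nonneg _ p)


/-- the local sums -/
lemma local_sum (β : Circle) {u : ℝ} (hu0 : 0 < u) (hu1 : u < 1) (hβ : β ≠ 1) :
    ∃ T : ℝ, HasSum (fun k : ℕ => ‖1 - (β : ℂ) ^ (k + 1)‖ ^ 2 / (k + 1) * u ^ (k + 1)) T ∧
      2 * -Real.log (1 - u) + 2 * Real.log (‖1 - (β : ℂ)‖ / 2) ≤ T := by
  have h1 : HasSum (fun k : ℕ => u ^ (k + 1) / (k + 1)) (-Real.log (1 - u)) :=
    Real.hasSum_pow_div_log_of_abs_lt_one (by rw [abs_of_pos hu0]; exact hu1)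
  have hz : ‖(β : ℂ) * u‖ < 1 := by
    rw [norm_mul, Circle.norm_coe, one_mul, Complex.norm_real, Real.norm_of_nonneg hu0.le]
    exact hu1
  have h2 := Complex.hasSum_taylorSeries_neg_log hz
  have h3 : HasSum (fun k : ℕ => ((β : ℂ) * u) ^ (k + 1) / ((k + 1 : ℕ) : ℂ))
      (-Complex.log (1 - (β : ℂ) * u)) := by
    have := (hasSum_nat_add_iff' 1).mpr h2
    simpa using this
  have h4 := Complex.hasSum_re h3
  rw [Complex.neg_re, Complex.log_re] at h4
  refine ⟨2 * -Real.log (1 - u) - 2 * -Real.log ‖1 - (β : ℂ) * u‖, ?_, ?_⟩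
  · refine ((h1.mul_left 2).sub (h4.mul_left 2)).congr_fun fun k => ?_
    have e1 : ‖1 - (β : ℂ) ^ (k + 1)‖ ^ 2 = 2 - 2 * ((β : ℂ) ^ (k + 1)).re := by
      have h8 : ‖(β : ℂ) ^ (k + 1)‖ = 1 := by rw [norm_pow, Circle.norm_coe, one_pow]
      have h9 : ((β : ℂ) ^ (k + 1)).re ^ 2 + ((β : ℂ) ^ (k + 1)).im ^ 2 = 1 := by
        have := Complex.sq_norm ((β : ℂ) ^ (k + 1))
        rw [h8, Complex.normSq_apply] at this
        linarith
      rw [Complex.sq_norm, Complex.normSq_apply]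
      simp only [Complex.sub_re, Complex.sub_im, Complex.one_re, Complex.one_im]
      nlinarith
    have e2 : (((β : ℂ) * u) ^ (k + 1) / ((k + 1 : ℕ) : ℂ)).re =
        ((β : ℂ) ^ (k + 1)).re * u ^ (k + 1) / (k + 1) := by
      rw [mul_pow]
      have : (β : ℂ) ^ (k + 1) * (u : ℂ) ^ (k + 1) / ((k + 1 : ℕ) : ℂ) =
          (β : ℂ) ^ (k + 1) * ((u ^ (k + 1) / (k + 1) : ℝ) : ℂ) := by
        push_cast; ring
      rw [this, Complex.re_mul_ofReal]
      ring
    rw [e2, e1]
    ring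
  · have h5 : ‖1 - (β : ℂ)‖ / 2 ≤ ‖1 - (β : ℂ) * u‖ := by
      have h6 : ‖1 - (β : ℂ)‖ ≤ ‖1 - (β : ℂ) * u‖ + ‖(β : ℂ) * u - β‖ := by
        have := norm_add_le (1 - (β : ℂ) * u) ((β : ℂ) * u - β)
        rwa [sub_add_sub_cancel] at this
      have h7 : ‖(β : ℂ) * u - β‖ = 1 - u := by
        have : (β : ℂ) * u - β = β * ((u - 1 : ℝ) : ℂ) := by push_cast; ring
        rw [this, norm_mul, Circle.norm_coe, one_mul, Complex.norm_real, Real.norm_eq_abs,
          abs_of_neg (by linarith)]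
        ring
      have h8 : 1 - u ≤ ‖1 - (β : ℂ) * u‖ := by
        have := norm_sub_norm_le (1 : ℂ) ((β : ℂ) * u)
        rw [norm_one, norm_mul, Circle.norm_coe, one_mul, Complex.norm_real,
          Real.norm_of_nonneg hu0.le] at this
        exact this
      linarith
    have h9 : 0 < ‖1 - (β : ℂ)‖ := by
      rw [norm_pos_iff]
      intro h0
      apply hβ
      exact Circle.ext (by rw [Circle.coe_one]; exact (sub_eq_zero.mp h0).symm)
    have h10 := Real.log_le_log (by positivity) h5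
    linarith


variable [Countable P]

theorem core (hδ : 0 < δ) (hq : ∀ p, δ ≤ q p) (hsum : ∀ t, 1 < t → Summable fun p => Real.exp (-(t * q p)))
    (hz : (range z).Finite) (hzt : ∀ p w, z p w = 1 ∨ ∀ j, 1 ≤ j → z p w ^ j ≠ 1)
    (hF : ∀ j, 1 ≤ j → ∃ F : ℂ → ℂ, (∀ t : ℝ, 0 ≤ t → t ≤ 1 → MeromorphicAt F t) ∧
      ∀ s : ℂ, 1 < s.re → F s =
        Complex.exp (∑' i : P × ℕ, (aa z j i : ℂ) * Complex.exp (-(s * ll q i)))) :
    {p | z p ≠ 1}.Finite := by
  classical
  set T : Set ℝ := {t | 0 ≤ t ∧ Summable (ee z q t)} with hT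
  have hmono : ∀ t ∈ T, ∀ t', t ≤ t' → t' ∈ T := fun t ht t' h =>
    ⟨ht.1.trans h, Summable.of_nonneg_of_le (fun p => ee_nonneg t' p) (fun p => ee_anti hδ hq h p) ht.2⟩
  have h1T : ∀ t, 1 < t → t ∈ T := by
    intro t ht
    refine ⟨by linarith, Summable.of_nonneg_of_le (fun p => ee_nonneg t p) (fun p => ?_) (hsum t ht)⟩
    unfold ee
    split_ifs
    · exact (Real.exp_pos _).le
    · rfl
  set σ := sInf T with hσ
  have hbdd : BddBelow T := ⟨0, fun t ht => ht.1⟩
  have hne : T.Nonempty := ⟨2, h1T 2 (by norm_num)⟩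
  have hσ0 : 0 ≤ σ := le_csInf hne fun t ht => ht.1
  have hσ1 : σ ≤ 1 := le_of_forall_gt_imp_ge_of_dense fun t ht => csInf_le hbdd (h1T t ht)
  have hσT : ∀ t, σ < t → t ∈ T := by
    intro t ht
    obtain ⟨t', ht', hlt⟩ := exists_lt_of_csInf_lt hne ht
    exact hmono t' ht' t hlt.le
  have hconv : ∀ j t, σ < t → Summable fun i : P × ℕ => aa z j i * Real.exp (-(t * ll q i)) :=
    fun j t ht => summ hδ hq (hσ0.trans_lt ht) (hσT t ht).2 j
  have hmain : ∀ j, 1 ≤ j → ∃ k : ℕ, (∃ C : ℝ, ∀ᶠ t in 𝓝[>] σ,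
      |∑' i : P × ℕ, aa z j i * Real.exp (-(t * ll q i)) - k * (-Real.log (t - σ))| ≤ C) ∧
      (k = 0 → ∃ t, t < σ ∧ Summable fun i : P × ℕ => aa z j i * Real.exp (-(t * ll q i))) := by
    intro j hj
    obtain ⟨F, hF1, hF2⟩ := hF j hj
    obtain ⟨k, -, h⟩ := LS.main (aa_nonneg j) (ll_nonneg hδ hq) hσ0 hσ1 hF1 (hconv j) hF2
    exact ⟨k, h⟩
  have hpos : ∀ v ∈ range z, v ≠ 1 → ∀ j, 1 ≤ j → 0 < cc v j := by
    rintro _ ⟨p, rfl⟩ hv j hj
    exact cc_pos hv (hzt p) hj
  have hlog := tendsto_neg_log σ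
  obtain ⟨k1, ⟨C1, hC1⟩, -⟩ := hmain 1 le_rfl
  rcases hσ0.lt_or_eq with hpos0 | hzero
  · -- the abscissa is positive
    exfalso
    obtain ⟨c0, hc0, hc⟩ := min_pos hz hpos (le_refl 1)
    obtain ⟨j, hj, hjs⟩ := exists_small hz (ε := c0 / (2 * (k1 + 1))) (by positivity)
    obtain ⟨k, ⟨C, hC⟩, hk⟩ := hmain j hj
    have hk0 : k = 0 := by
      have h1 : (k : ℝ) ≤ k1 / (2 * (k1 + 1)) := by
        set B := 4 * (Fintype.card W : ℝ) * ((∑' p, ee z q (2 * σ) p) *
          ((1 - Real.exp (-(σ * δ)))⁻¹ * (Real.exp (-(σ * δ)))⁻¹)) with hB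
        refine le_of_growth (σ := σ) (C := C1 / (2 * (k1 + 1)) + B + C) ?_
        filter_upwards [hC, hC1, self_mem_nhdsWithin] with t h2 h3 h4
        have h4' : σ < t := h4
        have h5 := upper hδ hq hpos0 h4' j (fun p => hjs _ ⟨p, rfl⟩) (fun t ht => (hσT t ht).2)
        have h6 : c0 * ∑' p, ee z q t p ≤ ∑' i : P × ℕ, aa z 1 i * Real.exp (-(t * ll q i)) := by
          rw [← tsum_mul_left]
          refine ((((hσT t h4').2).mul_left c0).tsum_le_tsum
            (fun p => lower 1 (fun p hp => hc _ ⟨p, rfl⟩ hp) t p) ?_).trans ?_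
          · exact (hconv 1 t h4').comp_injective
              (i := fun p : P => ((p, 0) : P × ℕ)) (fun a b h => (Prod.ext_iff.mp h).1)
          · exact tsum_comp_le_tsum_of_inj (hconv 1 t h4')
              (fun i => mul_nonneg (aa_nonneg 1 i) (Real.exp_pos _).le)
              (i := fun p : P => ((p, 0) : P × ℕ)) (fun a b h => (Prod.ext_iff.mp h).1)
        have h7 := (abs_le.mp h2).1
        have h8 := (abs_le.mp h3).2
        have h9 : c0 / (2 * (k1 + 1)) * ∑' p, ee z q t p ≤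
            (k1 * (-Real.log (t - σ)) + C1) / (2 * (k1 + 1)) := by
          rw [div_mul_eq_mul_div]
          refine div_le_div_of_nonneg_right ?_ (by positivity)
          linarith
        have h10 : (k1 * (-Real.log (t - σ)) + C1) / (2 * ((k1 : ℝ) + 1)) =
            k1 / (2 * (k1 + 1)) * (-Real.log (t - σ)) + C1 / (2 * (k1 + 1)) := by ring
        rw [h10] at h9
        linarith
      have h2 : (k1 : ℝ) / (2 * (k1 + 1)) < 1 := by
        rw [div_lt_one (by positivity)]
        have : (0 : ℝ) ≤ k1 := Nat.cast_nonneg _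
        linarith
      have h3 : (k : ℝ) < 1 := h1.trans_lt h2
      have h4 : k < 1 := by exact_mod_cast h3
      omega
    obtain ⟨t, ht, hts⟩ := hk hk0
    obtain ⟨c, hc', hcc⟩ := min_pos hz hpos hj
    have h1 : Summable (ee z q t) := by
      refine Summable.of_nonneg_of_le (fun p => ee_nonneg t p) (fun p => ?_)
        ((hts.comp_injective (i := fun p : P => ((p, 0) : P × ℕ))
          (fun a b h => (Prod.ext_iff.mp h).1)).mul_left c⁻¹)
      rw [← div_le_iff₀' (by positivity), div_inv_eq_mul, mul_comm]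
      exact lower j (fun p hp => hcc _ ⟨p, rfl⟩ hp) t p
    have h2 : max t 0 ∈ T := ⟨le_max_right _ _, Summable.of_nonneg_of_le (fun p => ee_nonneg _ p)
      (fun p => ee_anti hδ hq (le_max_left _ _) p) h1⟩
    have h3 : σ ≤ max t 0 := csInf_le hbdd h2
    exact absurd h3 (not_le.mpr (max_lt ht hpos0))
  · -- the abscissa is zero
    by_contra hinf
    obtain ⟨A, hA, hcard⟩ := Set.Infinite.exists_subset_card_eq hinf (k1 + 1)
    have hw : ∀ p : P, ∃ w, p ∈ A → z p w ≠ 1 := by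
      intro p
      by_cases hp : p ∈ A
      · have h1 : z p ≠ 1 := hA hp
        by_contra hc
        push Not at hc
        exact h1 (funext fun w => (hc w).2)
      · by_cases hW : Nonempty W
        · exact ⟨hW.some, fun h => absurd h hp⟩
        · exfalso
          have hW' : IsEmpty W := not_nonempty_iff.mp hW
          obtain ⟨p', hp'⟩ : A.Nonempty := by
            rw [← Finset.card_pos, hcard]; omega
          exact hA hp' (Subsingleton.elim _ _)
    choose w hw using hw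
    have hkey : (2 * (k1 + 1 : ℕ) : ℝ) ≤ k1 := by
      refine le_of_growth (σ := σ)
        (C := C1 + ∑ p ∈ A, (2 * Real.log (q p) - 2 * Real.log (‖1 - ((z p (w p) : Circle) : ℂ)‖ / 2))) ?_
      filter_upwards [hC1, self_mem_nhdsWithin] with t h3 h4
      have h4' : σ < t := h4
      have ht0 : 0 < t := by rw [hzero]; exact h4'
      have hts : t - σ = t := by rw [← hzero, sub_zero]
      have hconv1 := hconv 1 t h4'
      have h5 : ∑ p ∈ A, ∑' k : ℕ, aa z 1 (p, k) * Real.exp (-(t * ll q (p, k))) ≤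
          ∑' i : P × ℕ, aa z 1 i * Real.exp (-(t * ll q i)) := by
        rw [hconv1.tsum_prod]
        exact hconv1.prod.sum_le_tsum A fun p _ =>
          tsum_nonneg fun k => mul_nonneg (aa_nonneg 1 _) (Real.exp_pos _).le
      have h6 : ∀ p ∈ A, 2 * -Real.log t - (2 * Real.log (q p) -
          2 * Real.log (‖1 - ((z p (w p) : Circle) : ℂ)‖ / 2)) ≤
          ∑' k : ℕ, aa z 1 (p, k) * Real.exp (-(t * ll q (p, k))) := by
        intro p hp
        have hqp := hδ.trans_le (hq p)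
        have hu0 : 0 < Real.exp (-(t * q p)) := Real.exp_pos _
        have hu1 : Real.exp (-(t * q p)) < 1 := by
          rw [Real.exp_lt_one_iff]
          have := mul_pos ht0 hqp
          linarith
        obtain ⟨T', hT1, hT2⟩ := local_sum (z p (w p)) hu0 hu1 (hw p hp)
        have h7 : T' ≤ ∑' k : ℕ, aa z 1 (p, k) * Real.exp (-(t * ll q (p, k))) := by
          refine hasSum_le (fun k => ?_) hT1 (hconv1.comp_injective
            (i := fun k : ℕ => ((p, k) : P × ℕ)) (fun a b h => (Prod.ext_iff.mp h).2)).hasSum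
          show _ ≤ aa z 1 (p, k) * Real.exp (-(t * ll q (p, k)))
          have e1 : Real.exp (-(t * ll q (p, k))) = Real.exp (-(t * q p)) ^ (k + 1) := by
            rw [← Real.exp_nat_mul]
            unfold ll
            congr 1
            push_cast
            ring
          rw [e1]
          refine mul_le_mul_of_nonneg_right ?_ (by positivity)
          unfold aa
          refine div_le_div_of_nonneg_right ?_ (by positivity)
          unfold cc
          rw [one_mul]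
          exact Finset.single_le_sum
            (f := fun w => ‖1 - ((z p w : Circle) : ℂ) ^ (k + 1)‖ ^ 2)
            (fun _ _ => by positivity) (Finset.mem_univ (w p))
        have h8 : Real.log (1 - Real.exp (-(t * q p))) ≤ Real.log t + Real.log (q p) := by
          rw [← Real.log_mul ht0.ne' hqp.ne']
          refine Real.log_le_log (by linarith) ?_
          have := Real.add_one_le_exp (-(t * q p))
          linarith
        linarith
      have h7 := Finset.sum_le_sum h6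
      rw [Finset.sum_sub_distrib, Finset.sum_const, hcard, nsmul_eq_mul] at h7
      have h8 := (abs_le.mp h3).2
      rw [hts] at h8 ⊢
      have h9 : (((k1 + 1 : ℕ) : ℝ) * (2 * -Real.log t)) = 2 * ((k1 + 1 : ℕ) : ℝ) * -Real.log t := by
        ring
      rw [h9] at h7
      linarith
    push_cast at hkey
    have : (0 : ℝ) ≤ k1 := Nat.cast_nonneg _
    linarith

end Pool.Agent.H4.FinC
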