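import Mathlib
import Pool.Graph.R_pool_sql_team_seeded_3997aac3.Q297.ChLandau

/-!
# Exponentials of generalised Dirichlet series with nonnegative coefficients on the real axis
-/

open Filter Topology MeasureTheory ProbabilityTheory Set

namespace Pool.Agent.H4.LS

variable {ι : Type*} [Countable ι] {a l : ι → ℝ}

/-- the measure `∑ a_i δ_{l_i}` -/
noncomputable def mu (a l : ι → ℝ) : Measure ℝ :=
  Measure.sum fun i => ENNReal.ofReal (a i) • Measure.dirac (l i)

lemma mem_iff (ha : ∀ i, 0 ≤ a i) (t : ℝ) :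
    t ∈ integrableExpSet (fun u : ℝ => -u) (mu a l) ↔
      Summable fun i => a i * Real.exp (-(t * l i)) := by
  unfold integrableExpSet mu
  rw [Set.mem_ofPred_eq, integrable_sum_dirac_iff (fun i => ENNReal.ofReal_ne_top)]
  refine summable_congr fun i => ?_
  rw [ENNReal.toReal_ofReal (ha i), Real.norm_of_nonneg (Real.exp_pos _).le, mul_neg]

lemma mgf_eq (ha : ∀ i, 0 ≤ a i) (t : ℝ) :
    mgf (fun u : ℝ => -u) (mu a l) t = ∑' i, a i * Real.exp (-(t * l i)) := by
  unfold mgf mu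
  rw [integral_sum_dirac (fun i => ENNReal.ofReal_ne_top)]
  refine tsum_congr fun i => ?_
  rw [ENNReal.toReal_ofReal (ha i), smul_eq_mul, mul_neg]

lemma cmgf_eq (ha : ∀ i, 0 ≤ a i) (s : ℂ) :
    complexMGF (fun u : ℝ => -u) (mu a l) s = ∑' i, (a i : ℂ) * Complex.exp (-(s * l i)) := by
  unfold complexMGF mu
  rw [integral_sum_dirac (fun i => ENNReal.ofReal_ne_top)]
  refine tsum_congr fun i => ?_
  rw [ENNReal.toReal_ofReal (ha i), Complex.real_smul]
  congr 2
  push_cast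
  ring

lemma tendsto_pt (σ : ℝ) : Tendsto (fun t : ℝ => (t : ℂ)) (𝓝[>] σ) (𝓝[≠] (σ : ℂ)) := by
  refine tendsto_nhdsWithin_of_tendsto_nhds_of_eventually_within _ ?_ ?_
  · exact (Complex.continuous_ofReal.tendsto σ).mono_left nhdsWithin_le_nhds
  · filter_upwards [self_mem_nhdsWithin] with t ht h
    have h1 : σ < t := ht
    have h2 : (t : ℂ) = σ := h
    rw [Complex.ofReal_inj] at h2
    linarith

lemma analytic_log_norm {g : ℂ → ℂ} {σ : ℝ} (hg : AnalyticAt ℂ g σ) (h0 : g σ ≠ 0) :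
    AnalyticAt ℝ (fun t : ℝ => Real.log ‖g t‖) σ := by
  have h1 : AnalyticAt ℝ (fun t : ℝ => (g t).re) σ := hg.re_ofReal
  have h2 : AnalyticAt ℝ (fun t : ℝ => (g t).im) σ := hg.im_ofReal
  have h3 : AnalyticAt ℝ (fun t : ℝ => (g t).re ^ 2 + (g t).im ^ 2) σ := (h1.pow 2).add (h2.pow 2)
  have e : ∀ z : ℂ, ‖z‖ ^ 2 = z.re ^ 2 + z.im ^ 2 := fun z => by
    rw [← Complex.normSq_eq_norm_sq, Complex.normSq_apply]; ring
  have h4 : 0 < (g σ).re ^ 2 + (g σ).im ^ 2 := by
    rw [← e]; exact pow_pos (norm_pos_iff.mpr h0) 2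
  have h5 : AnalyticAt ℝ (fun t : ℝ => (1 / 2 : ℝ) * Real.log ((g t).re ^ 2 + (g t).im ^ 2)) σ :=
    analyticAt_const.mul (h3.log h4)
  refine h5.congr (Eventually.of_forall fun t => ?_)
  beta_reduce
  rw [← e, Real.log_pow]
  push_cast
  ring

theorem main (ha : ∀ i, 0 ≤ a i) (hl : ∀ i, 0 ≤ l i) {F : ℂ → ℂ} {σ : ℝ} (hσ0 : 0 ≤ σ)
    (hσ1 : σ ≤ 1) (hF : ∀ t : ℝ, 0 ≤ t → t ≤ 1 → MeromorphicAt F t)
    (hconv : ∀ t, σ < t → Summable fun i => a i * Real.exp (-(t * l i)))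
    (hFL : ∀ s : ℂ, 1 < s.re → F s = Complex.exp (∑' i, (a i : ℂ) * Complex.exp (-(s * l i)))) :
    ∃ k : ℕ, meromorphicOrderAt F σ = ((-(k : ℤ) : ℤ) : WithTop ℤ) ∧
      (∃ C : ℝ, ∀ᶠ t in 𝓝[>] σ,
        |∑' i, a i * Real.exp (-(t * l i)) - k * (-Real.log (t - σ))| ≤ C) ∧
      (k = 0 → ∃ t, t < σ ∧ Summable fun i => a i * Real.exp (-(t * l i))) := by
  set X : ℝ → ℝ := fun u => -u with hX
  set μ := mu a l with hμ
  set D : ℂ → ℂ := complexMGF X μ with hD
  have hDs : ∀ s, D s = ∑' i, (a i : ℂ) * Complex.exp (-(s * l i)) := fun s => cmgf_eq ha s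
  have hmem : ∀ t, σ < t → t ∈ interior (integrableExpSet X μ) := by
    intro t ht
    rw [mem_interior]
    exact ⟨Ioi σ, fun u hu => (mem_iff ha u).mpr (hconv u hu), isOpen_Ioi, ht⟩
  have hDan : ∀ s : ℂ, σ < s.re → AnalyticAt ℂ D s := fun s hs => analyticAt_complexMGF (hmem _ hs)
  have hreal : ∀ t : ℝ, σ < t → D t = ((∑' i, a i * Real.exp (-(t * l i)) : ℝ) : ℂ) := by
    intro t ht
    rw [hDs]
    push_cast
    rfl
  -- `F` is meromorphic on the ray
  have hopen : IsOpen {s : ℂ | 1 < s.re} := isOpen_lt continuous_const Complex.continuous_re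
  have hev1 : ∀ s : ℂ, 1 < s.re → F =ᶠ[𝓝 s] fun z => Complex.exp (D z) := by
    intro s hs
    filter_upwards [hopen.mem_nhds hs] with z hz
    rw [hFL z hz, hDs]
  have hFm : ∀ t : ℝ, σ ≤ t → MeromorphicAt F t := by
    intro t ht
    by_cases h1 : t ≤ 1
    · exact hF t (hσ0.trans ht) h1
    · push Not at h1
      have h2 : 1 < ((t : ℂ)).re := by simpa using h1
      have h3 : AnalyticAt ℂ (fun z => Complex.exp (D z)) t :=
        (hDan t (by simpa using hσ1.trans_lt h1)).cexp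
      exact (h3.congr (hev1 t h2).symm).meromorphicAt
  set G : ℂ → ℂ := fun z => F z - Complex.exp (D z) with hG
  set U : Set ℂ := Complex.ofReal '' Ioi σ with hU
  have hUc : IsPreconnected U := isPreconnected_Ioi.image _ Complex.continuous_ofReal.continuousOn
  have hGm : MeromorphicOn G U := by
    rintro _ ⟨t, ht, rfl⟩
    exact (hFm t (le_of_lt ht)).sub ((hDan t (by simpa using ht)).cexp.meromorphicAt)
  have htop : ∀ t : ℝ, σ < t → meromorphicOrderAt G t = ⊤ := by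
    intro t ht
    by_contra hne
    have h2 : σ < 2 := by linarith
    have := hGm.meromorphicOrderAt_ne_top_of_isPreconnected (y := ((2 : ℝ) : ℂ)) hUc
      ⟨t, ht, rfl⟩ ⟨2, h2, rfl⟩ hne
    apply this
    rw [meromorphicOrderAt_eq_top_iff]
    have h3 := hev1 ((2 : ℝ) : ℂ) (by simp)
    filter_upwards [h3.filter_mono nhdsWithin_le_nhds] with z hz
    rw [hG]
    beta_reduce
    rw [hz, sub_self]
  -- equality near `σ`
  have heq : ∀ᶠ t : ℝ in 𝓝[>] σ, F t = Complex.exp (D t) := by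
    have h1 : ∀ᶠ z in 𝓝[≠] (σ : ℂ), AnalyticAt ℂ F z := (hFm σ le_rfl).eventually_analyticAt
    have ht := tendsto_pt σ
    filter_upwards [ht.eventually h1, self_mem_nhdsWithin] with t h2 h3
    have h4 : σ < t := h3
    have h5 := htop t h4
    rw [meromorphicOrderAt_eq_top_iff] at h5
    have h6 : F =ᶠ[𝓝[≠] (t : ℂ)] fun z => Complex.exp (D z) := by
      filter_upwards [h5] with z hz
      exact sub_eq_zero.mp hz
    have h7 := (h2.continuousAt.eventuallyEq_nhds_iff_eventuallyEq_nhdsNE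
      ((hDan t (by simpa using h4)).cexp.continuousAt)).mp h6
    exact h7.eq_of_nhds
  -- the order
  have hne : meromorphicOrderAt F σ ≠ ⊤ := by
    intro h
    rw [meromorphicOrderAt_eq_top_iff] at h
    have ht := tendsto_pt σ
    obtain ⟨t, h1, h2⟩ := ((ht.eventually h).and heq).exists
    rw [h1] at h2
    exact Complex.exp_ne_zero _ h2.symm
  obtain ⟨r, hr⟩ := WithTop.ne_top_iff_exists.mp hne
  obtain ⟨g, hg, hg0, hge⟩ := (meromorphicOrderAt_eq_int_iff (hFm σ le_rfl)).1 hr.symm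
  have ht := tendsto_pt σ
  have htn : Tendsto (fun t : ℝ => (t : ℂ)) (𝓝[>] σ) (𝓝 (σ : ℂ)) := ht.mono_right nhdsWithin_le_nhds
  have hgne : ∀ᶠ t : ℝ in 𝓝[>] σ, g t ≠ 0 := htn.eventually (hg.continuousAt.eventually_ne hg0)
  have hsum : ∀ᶠ t : ℝ in 𝓝[>] σ,
      ∑' i, a i * Real.exp (-(t * l i)) = r * Real.log (t - σ) + Real.log ‖g t‖ := by
    filter_upwards [heq, ht.eventually hge, hgne, self_mem_nhdsWithin] with t h1 h2 h3 h4
    have h5 : σ < t := h4
    rw [h1, hreal t h5] at h2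
    have h6 := congrArg (fun z : ℂ => Real.log ‖z‖) h2
    simp only [Complex.norm_exp, Complex.ofReal_re, Real.log_exp] at h6
    rw [h6, norm_smul, norm_zpow, ← Complex.ofReal_sub, Complex.norm_real,
      Real.norm_of_nonneg (by linarith), Real.log_mul, Real.log_zpow]
    · exact zpow_ne_zero _ (by linarith)
    · exact norm_ne_zero_iff.mpr h3
  have hlog : Tendsto (fun t : ℝ => Real.log ‖g t‖) (𝓝[>] σ) (𝓝 (Real.log ‖g σ‖)) :=
    ((hg.continuousAt.tendsto.comp htn).norm).log (norm_ne_zero_iff.2 hg0)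
  have hneg : Tendsto (fun t : ℝ => -Real.log (t - σ)) (𝓝[>] σ) atTop := by
    refine tendsto_neg_atBot_atTop.comp (Real.tendsto_log_nhdsGT_zero.comp ?_)
    refine tendsto_nhdsWithin_of_tendsto_nhds_of_eventually_within _ ?_ ?_
    · have : Tendsto (fun t : ℝ => t - σ) (𝓝 σ) (𝓝 (σ - σ)) := tendsto_id.sub_const σ
      rw [sub_self] at this
      exact this.mono_left nhdsWithin_le_nhds
    · filter_upwards [self_mem_nhdsWithin] with t ht
      have h1 : σ < t := ht
      show 0 < t - σ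
      linarith
  have hr0 : r ≤ 0 := by
    by_contra hpos
    push Not at hpos
    have hr1 : (0 : ℝ) < r := by exact_mod_cast hpos
    have h1 : Tendsto (fun t : ℝ => r * (-Real.log (t - σ)) + -Real.log ‖g t‖) (𝓝[>] σ) atTop :=
      (hneg.const_mul_atTop hr1).atTop_add hlog.neg
    obtain ⟨t, h2, h3⟩ := (hsum.and (h1.eventually_gt_atTop 0)).exists
    have h4 : 0 ≤ ∑' i, a i * Real.exp (-(t * l i)) :=
      tsum_nonneg fun i => mul_nonneg (ha i) (Real.exp_pos _).le
    linarith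
  refine ⟨(-r).toNat, ?_, ?_, ?_⟩
  · rw [Int.toNat_of_nonneg (by linarith), neg_neg]; exact hr.symm
  · refine ⟨|Real.log ‖g σ‖| + 1, ?_⟩
    filter_upwards [hsum, hlog.eventually (Metric.ball_mem_nhds _ one_pos)] with t h1 h2
    have h3 : (((-r).toNat : ℕ) : ℝ) = -r := by
      have : (((-r).toNat : ℤ) : ℝ) = ((-r : ℤ) : ℝ) := by rw [Int.toNat_of_nonneg (by linarith)]
      push_cast at this
      exact this
    rw [h1, h3]
    have e : (r : ℝ) * Real.log (t - σ) + Real.log ‖g t‖ - -r * -Real.log (t - σ) =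
      Real.log ‖g t‖ := by ring
    rw [e]
    have h4 : |Real.log ‖g t‖ - Real.log ‖g σ‖| < 1 := by
      rw [← Real.dist_eq]; exact h2
    have h5 := abs_sub_abs_le_abs_sub (Real.log ‖g t‖) (Real.log ‖g σ‖)
    linarith
  · intro hk
    have hr' : r = 0 := by
      have := Int.toNat_eq_zero.mp hk
      linarith
    -- real analyticity
    have hψ := analytic_log_norm hg hg0
    obtain ⟨δ, hδ, hδe⟩ : ∃ δ > 0, ∀ t ∈ Ioo σ (σ + δ), mgf X μ t = Real.log ‖g t‖ := by
      rw [eventually_nhdsWithin_iff, Metric.eventually_nhds_iff] at hsum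
      obtain ⟨δ, hδ, h1⟩ := hsum
      refine ⟨δ, hδ, fun t ht => ?_⟩
      rw [mgf_eq ha, h1 (by rw [Real.dist_eq, abs_lt]; constructor <;> linarith [ht.1, ht.2]) ht.1, hr']
      simp
    have hneg' : ∀ᵐ u ∂μ, X u ≤ 0 := by
      rw [hμ, mu, Measure.ae_sum_iff]
      intro i
      refine Measure.ae_smul_measure ?_ _
      rw [ae_dirac_iff (measurableSet_le (by fun_prop) measurable_const)]
      show -(l i) ≤ 0
      linarith [hl i]
    obtain ⟨ε, hε, hmemε⟩ := Q297.ChL.local_landau (by fun_prop) hneg' hδ hψ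
      (fun t ht => (mem_iff ha t).mpr (hconv t ht)) hδe
    exact ⟨σ - ε, by linarith, (mem_iff ha _).mp hmemε⟩

end Pool.Agent.H4.LS
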